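import Pool.Agent.Lib.NGT.Pts

/-!
# NGT / Mn: the bicliques for `q = ± 2^j` modulo `2^n + 1` or `2^n - 1`, `q` odd, `(j, n) = 1`
-/

set_option autoImplicit false

namespace Pool.Agent.Lib.NGT

open Finset SimpleGraph Pool.Agent.Lib.MP_f4a4e4_co.NGX

theorem fixV {L : Type*} [Field L] (Q : ℕ) (hadd : ∀ x y : L, (x + y) ^ Q = x ^ Q + y ^ Q)
    (hsub : ∀ x y : L, (x - y) ^ Q = x ^ Q - y ^ Q) {ω u : L}
    (h : (u ^ Q = u ∧ ω ^ Q = ω) ∨ (u ^ Q = u⁻¹ ∧ ω ^ Q = -ω)) :
    (ω * (u - u⁻¹) / (u + u⁻¹)) ^ Q = ω * (u - u⁻¹) / (u + u⁻¹) := by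
  rw [div_pow, mul_pow, hsub, hadd, inv_pow]
  rcases h with ⟨h1, h2⟩ | ⟨h1, h2⟩
  · rw [h1, h2]
  · rw [h1, h2, inv_inv, add_comm u⁻¹ u]
    ring

theorem fixU {L : Type*} [Field L] (Q : ℕ) (hadd : ∀ x y : L, (x + y) ^ Q = x ^ Q + y ^ Q)
    (hsub : ∀ x y : L, (x - y) ^ Q = x ^ Q - y ^ Q) {ω u : L}
    (h : (u ^ Q = u ∧ ω ^ Q = ω) ∨ (u ^ Q = u⁻¹ ∧ ω ^ Q = -ω)) :
    (ω * (u + u⁻¹) / (u - u⁻¹)) ^ Q = ω * (u + u⁻¹) / (u - u⁻¹) := by
  rw [div_pow, mul_pow, hsub, hadd, inv_pow]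
  rcases h with ⟨h1, h2⟩ | ⟨h1, h2⟩
  · rw [h1, h2]
  · rw [h1, h2, inv_inv, ← neg_sub u u⁻¹, div_neg]
    ring

theorem exists_om {L : Type*} [Field L] [IsAlgClosed L] (M Q : ℕ) (hQ1 : 1 < Q) (hQ : PM M Q 1) :
    ∃ ω : L, ω ≠ 0 ∧ ∀ u : L, u ^ M = 1 → (u ^ Q = u ∧ ω ^ Q = ω) ∨ (u ^ Q = u⁻¹ ∧ ω ^ Q = -ω) := by
  rcases hQ with h | h
  · refine ⟨1, one_ne_zero, fun u hu => Or.inl ⟨?_, one_pow _⟩⟩
    rw [pow_eq_pow_of_modEq h hu, pow_one]
  · obtain ⟨ω, hω⟩ := IsAlgClosed.exists_pow_nat_eq (-1 : L) (show 0 < Q - 1 by omega)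
    refine ⟨ω, ?_, fun u hu => Or.inr ⟨?_, ?_⟩⟩
    · rintro rfl
      rw [zero_pow (by omega)] at hω
      exact neg_ne_zero.2 one_ne_zero hω.symm
    · obtain ⟨t, ht⟩ := h
      have h1 : u ^ (Q + 1) = 1 := by rw [ht, pow_mul, hu, one_pow]
      rw [pow_succ] at h1
      exact eq_inv_of_mul_eq_one_left h1
    · have e : Q = (Q - 1) + 1 := by omega
      rw [e, pow_succ, hω]
      ring

theorem cop {q j M : ℕ} (hM : Odd M) (hq : PM M q (2 ^ j)) : Nat.Coprime q M := by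
  have h2 : Nat.Coprime (2 ^ j) M := Nat.Coprime.pow_left j (Nat.coprime_two_left.2 hM)
  rcases hq with h | h
  · unfold Nat.Coprime
    rw [h.gcd_eq]
    exact h2
  · have h3 : Nat.gcd q M ∣ 2 ^ j := (Nat.dvd_add_right (Nat.gcd_dvd_left q M)).1 ((Nat.gcd_dvd_right q M).trans h)
    have h4 : Nat.gcd q M ∣ Nat.gcd (2 ^ j) M := Nat.dvd_gcd h3 (Nat.gcd_dvd_right q M)
    rw [h2] at h4
    exact Nat.dvd_one.1 h4

theorem cast_ne {F L : Type*} [Field F] [Finite F] [Field L] [Algebra F L] {M : ℕ} (h : Nat.Coprime (Nat.card F) M) :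
    (M : L) ≠ 0 := by
  have := Fintype.ofFinite F
  intro h0
  have hq0 : ((Nat.card F : ℕ) : L) = 0 := by
    have h1 := congrArg (algebraMap F L) (FiniteField.cast_card_eq_zero F)
    rw [map_natCast, map_zero] at h1
    rw [Nat.card_eq_fintype_card]
    exact h1
  obtain ⟨a, b, hab⟩ := Nat.isCoprime_iff_coprime.2 h
  have h1 : ((a * (Nat.card F : ℤ) + b * (M : ℤ) : ℤ) : L) = 1 := by rw [hab, Int.cast_one]
  push_cast at h1
  rw [hq0, h0, mul_zero, mul_zero, add_zero] at h1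
  exact zero_ne_one h1

theorem two_ne {F L : Type*} [Field F] [Finite F] [Field L] [Algebra F L] (h : Odd (Nat.card F)) : (2 : L) ≠ 0 := by
  have h1 := cast_ne (F := F) (L := L) (M := 2) (Nat.coprime_two_right.2 h)
  exact_mod_cast h1

theorem norm_P {F K L : Type*} [Field F] [Field K] [Finite K] [Algebra F K] [Field L] [Algebra K L] (x : K) :
    algebraMap K L (algebraMap F K (Algebra.norm F x)) = P F (Module.finrank F K) (algebraMap K L x) := by
  rw [FiniteField.algebraMap_norm_eq_prod_pow, map_prod]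
  simp only [P, map_pow]

/-- bic with a condition that does not name the values -/
theorem bic' {F K : Type} [Field F] [Field K] [Finite K] [Algebra F K] (A B : Finset K)
    (hAB : ∀ x ∈ A, ∀ y ∈ B, x ≠ y)
    (h : ∀ x ∈ A, ∀ x' ∈ A, ∀ y ∈ B, Algebra.norm F (x - y) = Algebra.norm F (x' - y))
    (hcard : A.card + B.card + A.card * B.card < Nat.card K) :
    completeBipartiteGraph (Fin A.card) (Fin (B.card + 1)) ⊑ NormGraph F K := by
  rcases A.eq_empty_or_nonempty with hA | ⟨x0, hx0⟩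
  · refine bic A B (fun _ => 1) (fun _ _ => one_ne_zero) hAB ?_ hcard
    intro x hx
    rw [hA] at hx
    simp at hx
  · have : Finite F := Finite.of_injective (algebraMap F K) (algebraMap F K).injective
    refine bic A B (fun y => Algebra.norm F (x0 - y)) ?_ hAB (fun x hx y hy => h x hx x0 hx0 y hy) hcard
    intro y hy
    rw [Algebra.norm_ne_zero_iff]
    exact sub_ne_zero.2 (hAB x0 hx0 y hy)

theorem main {F K : Type} [Field F] [Field K] [Finite K] [Algebra F K] {n j M : ℕ} (hn : 1 ≤ n)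
    (hm : Module.finrank F K = n) (hj : Nat.Coprime j n) (hodd : Odd (Nat.card F))
    (hM : M = 2 ^ n + 1 ∨ M = 2 ^ n - 1) (hq : Nat.card F ≡ 2 ^ j [MOD M] ∨ M ∣ Nat.card F + 2 ^ j) {a b : ℕ}
    (hab : a + b + 1 = M) (hs : a + b + a * b < Nat.card F ^ n) :
    completeBipartiteGraph (Fin a) (Fin (b + 1)) ⊑ NormGraph F K := by
  classical
  have hF : Finite F := Finite.of_injective (algebraMap F K) (algebraMap F K).injective
  have hq' : PM M (Nat.card F) (2 ^ j) := hq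
  have hMo := odd_M hn hM
  have hcK : Nat.card K = Nat.card F ^ n := by rw [Module.natCard_eq_pow_finrank (K := F) (V := K), hm]
  have hQ : PM M (Nat.card K) 1 := by
    rw [hcK]
    refine (hq'.pow n).trans ?_
    rw [← pow_mul, mul_comm j n, pow_mul]
    have h1 := (PM_two hM).pow j
    rwa [one_pow] at h1
  have h2L : (2 : AlgebraicClosure K) ≠ 0 := two_ne (F := F) hodd
  obtain ⟨ω, hω0, hω⟩ := exists_om (L := AlgebraicClosure K) M (Nat.card K) Finite.one_lt_card hQ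
  obtain ⟨ε, hε0, hε⟩ := P_val (F := F) (L := AlgebraicClosure K) hn hj hM hq'
  have : NeZero (M : AlgebraicClosure K) := ⟨cast_ne (F := F) (cop hMo hq')⟩
  obtain ⟨ζ, hζ⟩ := HasEnoughRootsOfUnity.exists_primitiveRoot (AlgebraicClosure K) M
  have hadd : ∀ x y : AlgebraicClosure K, (x + y) ^ (Nat.card K) = x ^ (Nat.card K) + y ^ (Nat.card K) := by
    intro x y
    rw [hcK]
    exact frob_add' F _ n x y
  have hsub : ∀ x y : AlgebraicClosure K, (x - y) ^ (Nat.card K) = x ^ (Nat.card K) - y ^ (Nat.card K) := by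
    intro x y
    rw [hcK]
    exact frob_sub' F _ n x y
  have hV : ∀ u : AlgebraicClosure K, u ^ M = 1 → ∃ x : K, algebraMap K (AlgebraicClosure K) x = ω * (u - u⁻¹) / (u + u⁻¹) :=
    fun u hu => Pool.Agent.Lib.NGE.descent _ (fixV _ hadd hsub (hω u hu))
  have hU : ∀ u : AlgebraicClosure K, u ^ M = 1 → ∃ x : K, algebraMap K (AlgebraicClosure K) x = ω * (u + u⁻¹) / (u - u⁻¹) :=
    fun u hu => Pool.Agent.Lib.NGE.descent _ (fixU _ hadd hsub (hω u hu))
  choose! fV hfV using hV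
  choose! fU hfU using hU
  have hz : ∀ i : ℕ, (ζ ^ i) ^ M = 1 := fun i => by rw [← pow_mul, mul_comm, pow_mul, hζ.pow_eq_one, one_pow]
  have hz1 : ∀ i : ℕ, 0 < i → i < M → ζ ^ i ≠ 1 := fun i h0 hi => hζ.pow_ne_one_of_pos_of_lt h0.ne' hi
  set A : Finset K := (range a).image fun i => fV (ζ ^ (i + 1)) with hA
  set B : Finset K := (range b).image fun i => fU (ζ ^ (a + i + 1)) with hB
  have hAc : A.card = a := by
    rw [hA, card_image_of_injOn, card_range]
    intro i hi k hk hik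
    have hi' := mem_range.1 (Finset.mem_coe.1 hi)
    have hk' := mem_range.1 (Finset.mem_coe.1 hk)
    have h1 : fV (ζ ^ (i + 1)) = fV (ζ ^ (k + 1)) := hik
    have h3 := congrArg (algebraMap K (AlgebraicClosure K)) h1
    rw [hfV _ (hz _), hfV _ (hz _)] at h3
    have h4 := injV hMo h2L hω0 (hz _) (hz _) h3
    have h5 := hζ.pow_inj (by omega) (by omega) h4
    omega
  have hBc : B.card = b := by
    rw [hB, card_image_of_injOn, card_range]
    intro i hi k hk hik
    have hi' := mem_range.1 (Finset.mem_coe.1 hi)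
    have hk' := mem_range.1 (Finset.mem_coe.1 hk)
    have h1 : fU (ζ ^ (a + i + 1)) = fU (ζ ^ (a + k + 1)) := hik
    have h3 := congrArg (algebraMap K (AlgebraicClosure K)) h1
    rw [hfU _ (hz _), hfU _ (hz _)] at h3
    have h4 := injU hMo h2L hω0 (hz _) (hz _) (hz1 _ (by omega) (by omega)) (hz1 _ (by omega) (by omega)) h3
    have h5 := hζ.pow_inj (by omega) (by omega) h4
    omega
  have hP : ∀ i ∈ range a, ∀ k ∈ range b,
      algebraMap K (AlgebraicClosure K) (algebraMap F K (Algebra.norm F (fV (ζ ^ (i + 1)) - fU (ζ ^ (a + k + 1))))) =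
        P F n (-2 * ω) / P F n (ζ ^ (a + k + 1) - (ζ ^ (a + k + 1))⁻¹) := by
    intro i hi k hk
    have hi' := mem_range.1 hi
    have hk' := mem_range.1 hk
    rw [norm_P, map_sub, hfV _ (hz _), hfU _ (hz _), hm]
    refine P_diff hMo h2L hε0 hε ω _ _ (hz _) (hz _) (hz1 _ (by omega) (by omega)) (hz1 _ (by omega) (by omega)) ?_
    intro h
    have h5 := hζ.pow_inj (by omega) (by omega) h
    omega
  have hP0 : ∀ x : AlgebraicClosure K, x ≠ 0 → P F n x ≠ 0 := by
    intro x hx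
    exact Finset.prod_ne_zero_iff.2 fun i _ => pow_ne_zero _ hx
  have hinj : Function.Injective fun c : F => algebraMap K (AlgebraicClosure K) (algebraMap F K c) :=
    (algebraMap K (AlgebraicClosure K)).injective.comp (algebraMap F K).injective
  have key1 : completeBipartiteGraph (Fin A.card) (Fin (B.card + 1)) ⊑ NormGraph F K := by
    refine bic' A B ?_ ?_ ?_
    · intro x hx y hy hxy
      obtain ⟨i, hi, rfl⟩ := mem_image.1 hx
      obtain ⟨k, hk, rfl⟩ := mem_image.1 hy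
      have h1 := hP i hi k hk
      rw [hxy, sub_self] at h1
      have h3 : Algebra.norm F (0 : K) = 0 := by
        exact Algebra.norm_zero
      rw [h3, map_zero, map_zero] at h1
      have hk' := mem_range.1 hk
      refine (div_ne_zero (hP0 _ (mul_ne_zero (neg_ne_zero.2 h2L) hω0)) (hP0 _ (sub_ne hMo (hz _) (hz1 _ (by omega) (by omega))))) h1.symm
    · intro x hx x' hx' y hy
      obtain ⟨i, hi, rfl⟩ := mem_image.1 hx
      obtain ⟨i', hi', rfl⟩ := mem_image.1 hx'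
      obtain ⟨k, hk, rfl⟩ := mem_image.1 hy
      apply hinj
      show algebraMap K (AlgebraicClosure K) (algebraMap F K _) = algebraMap K (AlgebraicClosure K) (algebraMap F K _)
      rw [hP i hi k hk, hP i' hi' k hk]
    · rw [hAc, hBc, hcK]
      exact hs
  rwa [hAc, hBc] at key1

end Pool.Agent.Lib.NGT
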