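import Mathlib

/-!
# NGT / Num: primes in the classes `± 2^j` modulo `2^n ± 1`, and the size condition
-/

set_option autoImplicit false

namespace Pool.Agent.Lib.NGT

theorem primes_add (n j : ℕ) (hn : 1 ≤ n) : {p : ℕ | p.Prime ∧ p ≡ 2 ^ j [MOD 2 ^ n + 1]}.Infinite := by
  refine Nat.infinite_setOfPred_prime_and_modEq (Nat.succ_ne_zero _) ?_
  have h1 : Nat.Coprime 2 (2 ^ n + 1) := by
    rw [Nat.coprime_two_left, Nat.odd_iff]
    obtain ⟨k, rfl⟩ : ∃ k, n = k + 1 := ⟨n - 1, by omega⟩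
    rw [pow_succ]
    omega
  exact Nat.Coprime.pow_left j h1

theorem primes_add' (n j : ℕ) (hn : 1 ≤ n) : {p : ℕ | p.Prime ∧ 2 ^ n + 1 ∣ p + 2 ^ j}.Infinite := by
  refine (primes_add n (n + j) hn).mono ?_
  rintro p ⟨hp, h⟩
  refine ⟨hp, ?_⟩
  have h1 : p + 2 ^ j ≡ 0 [MOD 2 ^ n + 1] := by
    refine (h.add_right _).trans ?_
    refine (Nat.modEq_zero_iff_dvd).2 ⟨2 ^ j, ?_⟩
    rw [pow_add]
    ring
  exact (Nat.modEq_zero_iff_dvd).1 h1

theorem primes_sub' (n j : ℕ) (hn : 2 ≤ n) : {p : ℕ | p.Prime ∧ 2 ^ n - 1 ∣ p + 2 ^ j}.Infinite := by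
  obtain ⟨M, hM⟩ : ∃ M, 2 ^ n = M + 2 := ⟨2 ^ n - 2, by
    have : 2 ^ 2 ≤ 2 ^ n := Nat.pow_le_pow_right (by norm_num) hn
    omega⟩
  have hM1 : 2 ^ n - 1 = M + 1 := by omega
  rw [hM1]
  have hev : 2 ∣ M := by
    obtain ⟨k, rfl⟩ : ∃ k, n = k + 1 := ⟨n - 1, by omega⟩
    rw [pow_succ] at hM
    omega
  have hco : Nat.Coprime (M * 2 ^ j) (M + 1) := by
    refine Nat.Coprime.mul_left ?_ (Nat.Coprime.pow_left j ?_)
    · exact (Nat.coprime_self_add_right).2 (Nat.coprime_one_right M)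
    · rw [Nat.coprime_two_left, Nat.odd_iff]
      omega
  refine (Nat.infinite_setOfPred_prime_and_modEq (by omega) hco).mono ?_
  rintro p ⟨hp, h⟩
  refine ⟨hp, ?_⟩
  have h1 : p + 2 ^ j ≡ 0 [MOD M + 1] := by
    refine (h.add_right _).trans ?_
    refine (Nat.modEq_zero_iff_dvd).2 ⟨2 ^ j, ?_⟩
    ring
  exact (Nat.modEq_zero_iff_dvd).1 h1

theorem size {n q a b : ℕ} (hn : 1 ≤ n) (hq : 4 ≤ q) (hab : a + b ≤ 2 ^ n) : a + b + a * b < q ^ n := by
  have h1 : 2 ≤ 2 ^ n := by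
    calc 2 = 2 ^ 1 := rfl
      _ ≤ 2 ^ n := Nat.pow_le_pow_right (by norm_num) hn
  have h2 : 2 ^ n * 2 ^ n ≤ q ^ n := by
    rw [← mul_pow]
    exact Nat.pow_le_pow_left (by omega) n
  refine lt_of_lt_of_le ?_ h2
  obtain ⟨x, hx⟩ : ∃ x, x = 2 ^ n := ⟨_, rfl⟩
  rw [← hx] at h1 hab ⊢
  zify at h1 hab ⊢
  nlinarith [sq_nonneg ((a : ℤ) - b), mul_self_le_mul_self (by positivity : (0 : ℤ) ≤ a + b) hab]

private theorem size_le3 {n M a b : ℕ} (hn : 2 ≤ n) (hn3 : n ≤ 3) (hM : M = 2 ^ n + 1 ∨ M = 2 ^ n - 1)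
    (hab : a + b + 1 = M) : a + b + a * b < 3 ^ n := by
  interval_cases n
  · have h : a + b ≤ 4 := by
      rcases hM with h | h <;> norm_num at h <;> omega
    have h1 : a ≤ 4 := by omega
    interval_cases a <;> omega
  · have h : a + b ≤ 8 := by
      rcases hM with h | h <;> norm_num at h <;> omega
    have h1 : a ≤ 8 := by omega
    interval_cases a <;> omega

theorem size3 {n j a b M : ℕ} (hn : 2 ≤ n) (hM : M = 2 ^ n + 1 ∨ M = 2 ^ n - 1)
    (h : 3 ≡ 2 ^ j [MOD M] ∨ M ∣ 3 + 2 ^ j) (hab : a + b + 1 = M) : a + b + a * b < 3 ^ n := by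
  by_cases hn3 : n ≤ 3
  · exact size_le3 hn hn3 hM hab
  exfalso
  have h8 : 8 ≤ 2 ^ (n - 1) := by
    calc 8 = 2 ^ 3 := rfl
      _ ≤ 2 ^ (n - 1) := Nat.pow_le_pow_right (by norm_num) (by omega)
  have h2n : 2 ^ n = 2 * 2 ^ (n - 1) := by
    conv_lhs => rw [show n = (n - 1) + 1 by omega, pow_succ]
    ring
  obtain ⟨e, he, hMe⟩ : ∃ e : ℤ, (e = 1 ∨ e = -1) ∧ (M : ℤ) = 2 ^ n - e := by
    rcases hM with h | h
    · exact ⟨-1, Or.inr rfl, by rw [h]; push_cast; ring⟩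
    · refine ⟨1, Or.inl rfl, ?_⟩
      rw [h, Nat.cast_sub (by omega)]
      push_cast
      ring
  have hmod : (2 : ℤ) ^ n ≡ e [ZMOD M] := by
    refine Int.ModEq.symm ((Int.modEq_iff_dvd).2 ?_)
    rw [hMe]
  have hj : (2 : ℤ) ^ j ≡ e ^ (j / n) * 2 ^ (j % n) [ZMOD M] := by
    have h1 : (2 : ℤ) ^ j = (2 ^ n) ^ (j / n) * 2 ^ (j % n) := by
      rw [← pow_mul, ← pow_add, Nat.div_add_mod]
    rw [h1]
    exact (hmod.pow _).mul_right _
  have hs : e ^ (j / n) = 1 ∨ e ^ (j / n) = -1 := by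
    rcases he with h | h
    · left
      rw [h, one_pow]
    · rw [h]
      exact neg_one_pow_eq_or ℤ _
  have hd := hj.dvd
  have h3 : ∃ s : ℤ, (s = 1 ∨ s = -1) ∧ (M : ℤ) ∣ 3 - s * 2 ^ (j % n) := by
    rcases h with h | h
    · have h4 : (M : ℤ) ∣ 2 ^ j - 3 := by
        have h5 := (Nat.modEq_iff_dvd).1 h
        push_cast at h5
        exact h5
      refine ⟨e ^ (j / n), hs, ?_⟩
      have h6 := dvd_neg.2 (dvd_add h4 hd)
      have h7 : -((2 : ℤ) ^ j - 3 + (e ^ (j / n) * 2 ^ (j % n) - 2 ^ j)) = 3 - e ^ (j / n) * 2 ^ (j % n) := by ring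
      rwa [h7] at h6
    · have h4 : (M : ℤ) ∣ 3 + 2 ^ j := by
        have h5 := Int.natCast_dvd_natCast.2 h
        push_cast at h5
        exact h5
      refine ⟨-e ^ (j / n), ?_, ?_⟩
      · rcases hs with h | h
        · right
          rw [h]
        · left
          rw [h, neg_neg]
      · have h6 := dvd_add h4 hd
        have h7 : (3 : ℤ) + 2 ^ j + (e ^ (j / n) * 2 ^ (j % n) - 2 ^ j) = 3 - -e ^ (j / n) * 2 ^ (j % n) := by ring
        rwa [h7] at h6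
  obtain ⟨s, hs1, hs2⟩ := h3
  have hk : (2 : ℤ) ^ (j % n) ≤ 2 ^ (n - 1) := by
    have h5 : j % n ≤ n - 1 := by
      have := Nat.mod_lt j (by omega : 0 < n)
      omega
    exact pow_le_pow_right₀ (by norm_num) h5
  have hk0 : (0 : ℤ) < 2 ^ (j % n) := by positivity
  have hM' : (2 : ℤ) * 2 ^ (n - 1) - 1 ≤ M := by
    rw [hMe]
    have h5 : (2 : ℤ) ^ n = 2 * 2 ^ (n - 1) := by exact_mod_cast h2n
    rw [h5]
    rcases he with h | h <;> rw [h] <;> linarith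
  have h8' : (8 : ℤ) ≤ 2 ^ (n - 1) := by exact_mod_cast h8
  have h0 : 3 - s * 2 ^ (j % n) = 0 := by
    refine Int.eq_zero_of_abs_lt_dvd hs2 ?_
    rw [abs_lt]
    rcases hs1 with h | h
    · rw [h]
      exact ⟨by linarith, by linarith⟩
    · rw [h]
      exact ⟨by linarith, by linarith⟩
  rcases hs1 with h | h
  · rw [h, one_mul] at h0
    rcases Nat.lt_or_ge (j % n) 2 with h5 | h5
    · interval_cases (j % n) <;> norm_num at h0
    · have h6 : (2 : ℤ) ^ (j % n) = 4 * 2 ^ (j % n - 2) := by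
        conv_lhs => rw [show j % n = 2 + (j % n - 2) by omega, pow_add]
        norm_num
      rw [h6] at h0
      omega
  · rw [h] at h0
    linarith

end Pool.Agent.Lib.NGT
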