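import Pool.Agent.Lib.NGE.Main
import Pool.Agent.Lib.NGT.Num
import Pool.Agent.Lib.NGT.Mn

/-!
# NGT / Fin: odd `q` in the classes `± 2^j` modulo `2^(s-1) + 1` and `-2^j` modulo `2^(s-1) - 1`
-/

set_option autoImplicit false

namespace Pool.Agent.Lib.NGT

open SimpleGraph Pool.Agent.Lib.MP_f4a4e4_co.NGX

private theorem fin_main {F K : Type} [Field F] [Field K] [Finite K] [Algebra F K] {n j M : ℕ} (hn : 2 ≤ n)
    (hm : Module.finrank F K = n) (hj : Nat.Coprime j n) (hodd : Odd (Nat.card F)) (hM : M = 2 ^ n + 1 ∨ M = 2 ^ n - 1)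
    (hq : Nat.card F ≡ 2 ^ j [MOD M] ∨ M ∣ Nat.card F + 2 ^ j) {a b : ℕ} (hab : a + b + 1 = M) :
    completeBipartiteGraph (Fin a) (Fin (b + 1)) ⊑ NormGraph F K := by
  have := Finite.of_injective _ (FaithfulSMul.algebraMap_injective F K)
  have hq2 : 2 ≤ Nat.card F := Finite.one_lt_card
  have h2 : 2 ^ 2 ≤ 2 ^ n := Nat.pow_le_pow_right (by norm_num) hn
  refine main (by omega) hm hj hodd hM hq hab ?_
  by_cases h3 : Nat.card F = 3
  · rw [h3] at hq ⊢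
    exact size3 hn hM hq hab
  · have h4 : 4 ≤ Nat.card F := by
      obtain ⟨k, hk⟩ := hodd
      omega
    refine size (by omega) h4 ?_
    rcases hM with h | h <;> omega

theorem classes (s : ℕ) (hs : 3 ≤ s) (j : ℕ) (hj : Nat.Coprime j (s - 1)) :
    (∀ (F K : Type) [Field F] [Field K] [Finite K] [Algebra F K], Module.finrank F K = s - 1 → Odd (Nat.card F) →
      (Nat.card F ≡ 2 ^ j [MOD 2 ^ (s - 1) + 1] ∨ 2 ^ (s - 1) + 1 ∣ Nat.card F + 2 ^ j) →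
        IsGreatest {r : ℕ | completeBipartiteGraph (Fin r) (Fin r) ⊑ NormGraph F K} (2 ^ (s - 2)) ∧
        ∀ a b : ℕ, a + b = 2 ^ (s - 1) → completeBipartiteGraph (Fin a) (Fin (b + 1)) ⊑ NormGraph F K) ∧
    (∀ (F K : Type) [Field F] [Field K] [Finite K] [Algebra F K], Module.finrank F K = s - 1 → Odd (Nat.card F) →
      2 ^ (s - 1) - 1 ∣ Nat.card F + 2 ^ j → ∀ a b : ℕ, a + b = 2 ^ (s - 1) - 2 →
        completeBipartiteGraph (Fin a) (Fin (b + 1)) ⊑ NormGraph F K) ∧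
    {p : ℕ | p.Prime ∧ p ≡ 2 ^ j [MOD 2 ^ (s - 1) + 1]}.Infinite ∧
    {p : ℕ | p.Prime ∧ 2 ^ (s - 1) + 1 ∣ p + 2 ^ j}.Infinite ∧
    {p : ℕ | p.Prime ∧ 2 ^ (s - 1) - 1 ∣ p + 2 ^ j}.Infinite := by
  obtain ⟨m, rfl⟩ : ∃ m, s = m + 2 := ⟨s - 2, by omega⟩
  have e1 : m + 2 - 1 = m + 1 := by omega
  have e2 : m + 2 - 2 = m := by omega
  rw [e1] at hj ⊢
  rw [e2]
  have h2 : 2 ^ 2 ≤ 2 ^ (m + 1) := Nat.pow_le_pow_right (by norm_num) (by omega)
  refine ⟨?_, ?_, primes_add _ _ (by omega), primes_add' _ _ (by omega), primes_sub' _ _ (by omega)⟩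
  · intro F K _ _ _ _ hm hodd hq
    have h : ∀ a b : ℕ, a + b = 2 ^ (m + 1) → completeBipartiteGraph (Fin a) (Fin (b + 1)) ⊑ NormGraph F K := by
      intro a b hab
      exact fin_main (by omega) hm hj hodd (Or.inl rfl) hq (by omega)
    exact ⟨NGE.greatest_even hm h, h⟩
  · intro F K _ _ _ _ hm hodd hq a b hab
    exact fin_main (by omega) hm hj hodd (Or.inr rfl) (Or.inr hq) (by omega)

end Pool.Agent.Lib.NGT
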