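import Pool.Agent.Lib.MP_f4a4e4_co.NGX.Infinity

set_option autoImplicit false

namespace Pool.Agent.Lib.NGT

open Finset

/-- `x ↦ x ^ (q ^ i)` is additive in every commutative algebra over a field with `q` elements -/
theorem frob_add' (F L : Type*) [Field F] [Finite F] [Field L] [Algebra F L] (k : ℕ) (x y : L) :
    (x + y) ^ (Nat.card F ^ k) = x ^ (Nat.card F ^ k) + y ^ (Nat.card F ^ k) := by
  have := Fintype.ofFinite F
  rw [Nat.card_eq_fintype_card]
  have h := map_add (FiniteField.frobeniusAlgHom F L ^ k) x y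
  simpa [AlgHom.coe_pow, FiniteField.coe_frobeniusAlgHom, pow_iterate] using h

theorem frob_sub' (F L : Type*) [Field F] [Finite F] [Field L] [Algebra F L] (k : ℕ) (x y : L) :
    (x - y) ^ (Nat.card F ^ k) = x ^ (Nat.card F ^ k) - y ^ (Nat.card F ^ k) := by
  have := Fintype.ofFinite F
  rw [Nat.card_eq_fintype_card]
  have h := map_sub (FiniteField.frobeniusAlgHom F L ^ k) x y
  simpa [AlgHom.coe_pow, FiniteField.coe_frobeniusAlgHom, pow_iterate] using h

/-- `a ≡ b` or `a ≡ -b` modulo `M` -/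
def PM (M a b : ℕ) : Prop := a ≡ b [MOD M] ∨ M ∣ a + b

theorem PM.mul {M a b c d : ℕ} (h : PM M a b) (h' : PM M c d) : PM M (a * c) (b * d) := by
  rcases h with h | h <;> rcases h' with h' | h'
  · exact Or.inl (h.mul h')
  · right
    have h1 : a * c + b * d ≡ b * c + b * d [MOD M] := Nat.ModEq.add_right _ (h.mul_right c)
    have h2 : M ∣ b * c + b * d := by
      rw [← mul_add]
      exact h'.mul_left b
    exact (Nat.modEq_zero_iff_dvd).1 (h1.trans (Nat.modEq_zero_iff_dvd.2 h2))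
  · right
    have h1 : a * c + b * d ≡ a * c + b * c [MOD M] := Nat.ModEq.add_left _ (h'.symm.mul_left b)
    have h2 : M ∣ a * c + b * c := by
      rw [← add_mul]
      exact h.mul_right c
    exact (Nat.modEq_zero_iff_dvd).1 (h1.trans (Nat.modEq_zero_iff_dvd.2 h2))
  · left
    have e : ((a * c : ℕ) : ℤ) - ((b * d : ℕ) : ℤ) = ((a : ℤ) + b) * c - b * ((c : ℤ) + d) := by
      push_cast
      ring
    have h1 : (M : ℤ) ∣ (a : ℤ) + b := by exact_mod_cast h
    have h2 : (M : ℤ) ∣ (c : ℤ) + d := by exact_mod_cast h'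
    have h3 : (M : ℤ) ∣ ((a * c : ℕ) : ℤ) - ((b * d : ℕ) : ℤ) := by
      rw [e]
      exact dvd_sub (h1.mul_right _) (h2.mul_left _)
    exact ((Nat.modEq_iff_dvd).2 h3).symm

theorem PM.refl (M a : ℕ) : PM M a a := Or.inl rfl

theorem PM.pow {M a b : ℕ} (h : PM M a b) (k : ℕ) : PM M (a ^ k) (b ^ k) := by
  induction k with
  | zero => exact Or.inl rfl
  | succ k ih =>
    rw [pow_succ, pow_succ]
    exact ih.mul h

theorem PM.trans {M a b c : ℕ} (h : PM M a b) (h' : PM M b c) : PM M a c := by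
  rcases h with h | h <;> rcases h' with h' | h'
  · exact Or.inl (h.trans h')
  · right
    have h1 : a + c ≡ b + c [MOD M] := h.add_right c
    exact (Nat.modEq_zero_iff_dvd).1 (h1.trans (Nat.modEq_zero_iff_dvd.2 h'))
  · right
    have h1 : a + c ≡ a + b [MOD M] := h'.symm.add_left a
    exact (Nat.modEq_zero_iff_dvd).1 (h1.trans (Nat.modEq_zero_iff_dvd.2 h))
  · left
    have h1 : (M : ℤ) ∣ (a : ℤ) + b := by exact_mod_cast h
    have h2 : (M : ℤ) ∣ (b : ℤ) + c := by exact_mod_cast h'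
    have h3 : (M : ℤ) ∣ (a : ℤ) - c := by
      have e : (a : ℤ) - c = ((a : ℤ) + b) - ((b : ℤ) + c) := by ring
      rw [e]
      exact dvd_sub h1 h2
    exact ((Nat.modEq_iff_dvd).2 h3).symm

/-- the even function `r ^ a + r ^ (-a)` depends on `a` modulo `M` up to sign only -/
theorem even_eq {L : Type*} [Field L] {M a b : ℕ} {r : L} (hr : r ^ M = 1) (h : PM M a b) :
    r ^ a + (r⁻¹) ^ a = r ^ b + (r⁻¹) ^ b := by
  have hr' : (r⁻¹) ^ M = 1 := by rw [inv_pow, hr, inv_one]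
  have hM : ∀ {x : L}, x ^ M = 1 → ∀ k, M ∣ k → x ^ k = 1 := by
    rintro x hx k ⟨t, rfl⟩
    rw [pow_mul, hx, one_pow]
  rcases h with h | h
  · rcases Nat.eq_zero_or_pos M with h0 | h0
    · subst h0
      have : a = b := by simpa [Nat.ModEq] using h
      rw [this]
    · rw [pow_eq_pow_of_modEq h hr, pow_eq_pow_of_modEq h hr']
  · have h1 : r ^ a * r ^ b = 1 := by rw [← pow_add]; exact hM hr _ h
    have e1 : r ^ a = (r⁻¹) ^ b := by
      rw [inv_pow]
      exact eq_inv_of_mul_eq_one_left h1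
    have e2 : (r⁻¹) ^ a = r ^ b := by
      rw [inv_pow]
      exact inv_eq_of_mul_eq_one_right h1
    rw [e1, e2, add_comm]

/-- telescoping -/
theorem tele {L : Type*} [Field L] (r : L) (m : ℕ) :
    (r - r⁻¹) * ∏ i ∈ range m, (r ^ (2 ^ i) + (r⁻¹) ^ (2 ^ i)) = r ^ (2 ^ m) - (r⁻¹) ^ (2 ^ m) := by
  induction m with
  | zero => simp
  | succ m ih =>
    rw [prod_range_succ, ← mul_assoc, ih, pow_succ, pow_mul, pow_mul]
    ring

/-- the permutation `i ↦ i j mod m` -/
theorem prod_perm {L : Type*} [CommMonoid L] {m j : ℕ} (hm : 1 ≤ m) (hj : Nat.Coprime j m) (g : ℕ → L) :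
    ∏ i ∈ range m, g ((i * j) % m) = ∏ i ∈ range m, g i := by
  have hmaps : ∀ i ∈ range m, (i * j) % m ∈ range m := fun i _ => mem_range.2 (Nat.mod_lt _ (by omega))
  have hinj : Set.InjOn (fun i => (i * j) % m) (range m : Finset ℕ) := by
    intro x hx y hy hxy
    have hx' := mem_range.1 (Finset.mem_coe.1 hx)
    have hy' := mem_range.1 (Finset.mem_coe.1 hy)
    have h6 : x * j ≡ y * j [MOD m] := hxy
    have h7 : x ≡ y [MOD m] := Nat.ModEq.cancel_right_of_coprime (by rw [Nat.gcd_comm]; exact hj) h6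
    exact Nat.ModEq.eq_of_lt_of_lt h7 hx' hy'
  have himg : (range m).image (fun i => (i * j) % m) = range m := by
    refine Finset.eq_of_subset_of_card_le ?_ ?_
    · intro x hx
      obtain ⟨i, hi, rfl⟩ := mem_image.1 hx
      exact hmaps i hi
    · rw [card_image_of_injOn hinj]
  conv_rhs => rw [← himg]
  rw [Finset.prod_image hinj]

/-- the product over the powers of `q` -/
theorem key {F L : Type*} [Field F] [Finite F] [Field L] [Algebra F L] {m j M : ℕ} (hm : 1 ≤ m) (hj : Nat.Coprime j m)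
    (hM : PM M (2 ^ m) 1) (hq : PM M (Nat.card F) (2 ^ j)) {r : L} (hr : r ^ M = 1) :
    (∏ i ∈ range m, (r + r⁻¹) ^ (Nat.card F ^ i)) * (r - r⁻¹) = r ^ (2 ^ m) - (r⁻¹) ^ (2 ^ m) := by
  have h1 : ∏ i ∈ range m, (r + r⁻¹) ^ (Nat.card F ^ i) =
      ∏ i ∈ range m, (r ^ (2 ^ ((i * j) % m)) + (r⁻¹) ^ (2 ^ ((i * j) % m))) := by
    refine Finset.prod_congr rfl fun i _ => ?_
    rw [frob_add' F L]
    refine even_eq hr ((hq.pow i).trans ?_)
    rw [← pow_mul, mul_comm j i]
    have e : 2 ^ (i * j) = 2 ^ ((i * j) % m) * (2 ^ m) ^ ((i * j) / m) := by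
      rw [← pow_mul, ← pow_add, Nat.mod_add_div]
    rw [e]
    have h2 := (PM.refl M (2 ^ ((i * j) % m))).mul (hM.pow ((i * j) / m))
    rwa [one_pow, mul_one] at h2
  rw [h1, prod_perm hm hj (fun i => r ^ (2 ^ i) + (r⁻¹) ^ (2 ^ i)), mul_comm, tele]

end Pool.Agent.Lib.NGT
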