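import Pool.Agent.Lib.NGT.Key
import Pool.Agent.Lib.NGT.Bic
import Pool.Agent.Lib.NGE.VKa

/-!
# NGT / Pts: points from the group of the `M`-th roots of unity

`M = 2^n + 1` or `M = 2^n - 1`, `q = ± 2^j mod M`, `(j, n) = 1`, `P x = ∏_{i<n} x^(q^i)` in `L`. `P (r + 1/r) = ε` for all `r ≠ 1` with `r^M = 1` (Key).
Points `V u = ω (u - 1/u)/(u + 1/u)` and `U u = ω (u + 1/u)/(u - 1/u)`, where `ω = 1` if `q^n = 1 mod M` and `ω^(q^n) = -ω` otherwise: they are in `K`.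
`V v - U u = -2 ω (r + 1/r)/((v + 1/v)(u - 1/u))` with `r = u/v`, so its norm is independent of `v`.
-/

set_option autoImplicit false

namespace Pool.Agent.Lib.NGT

open Finset SimpleGraph Pool.Agent.Lib.MP_f4a4e4_co.NGX

/-- the norm form -/
noncomputable def P (F : Type*) {L : Type*} [Field L] (n : ℕ) (x : L) : L := ∏ i ∈ range n, x ^ (Nat.card F ^ i)

theorem P_mul (F : Type*) {L : Type*} [Field L] (n : ℕ) (x y : L) : P F n (x * y) = P F n x * P F n y := by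
  simp only [P, mul_pow, prod_mul_distrib]

theorem P_div (F : Type*) {L : Type*} [Field L] (n : ℕ) (x y : L) : P F n (x / y) = P F n x / P F n y := by
  simp only [P, div_pow, prod_div_distrib]

theorem eq_one {L : Type*} [Field L] {M : ℕ} (hM : Odd M) {r : L} (hr : r ^ M = 1) (h : r ^ 2 = 1) : r = 1 := by
  obtain ⟨k, rfl⟩ := hM
  rwa [pow_add, pow_mul, h, one_pow, one_mul, pow_one] at hr

theorem ne_zero' {L : Type*} [Field L] {M : ℕ} (hM : Odd M) {r : L} (hr : r ^ M = 1) : r ≠ 0 := by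
  rintro rfl
  rw [zero_pow hM.pos.ne'] at hr
  exact zero_ne_one hr

theorem sub_ne {L : Type*} [Field L] {M : ℕ} (hM : Odd M) {r : L} (hr : r ^ M = 1) (h1 : r ≠ 1) : r - r⁻¹ ≠ 0 := by
  intro h
  have h0 := ne_zero' hM hr
  apply h1
  apply eq_one hM hr
  have h2 : r = r⁻¹ := sub_eq_zero.1 h
  calc r ^ 2 = r * r := sq r
    _ = r * r⁻¹ := by rw [← h2]
    _ = 1 := mul_inv_cancel₀ h0

theorem add_ne {L : Type*} [Field L] {M : ℕ} (hM : Odd M) (h2 : (2 : L) ≠ 0) {r : L} (hr : r ^ M = 1) : r + r⁻¹ ≠ 0 := by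
  intro h
  have h0 := ne_zero' hM hr
  have h3 : r ^ 2 = -1 := by
    have h4 : r = -r⁻¹ := eq_neg_of_add_eq_zero_left h
    calc r ^ 2 = r * r := sq r
      _ = r * (-r⁻¹) := by rw [← h4]
      _ = -(r * r⁻¹) := by ring
      _ = -1 := by rw [mul_inv_cancel₀ h0]
  have h5 : (r ^ 2) ^ M = 1 := by rw [← pow_mul, mul_comm, pow_mul, hr, one_pow]
  rw [h3, hM.neg_one_pow] at h5
  apply h2
  linear_combination -h5

theorem odd_M {n M : ℕ} (hn : 1 ≤ n) (hM : M = 2 ^ n + 1 ∨ M = 2 ^ n - 1) : Odd M := by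
  obtain ⟨k, rfl⟩ : ∃ k, n = k + 1 := ⟨n - 1, by omega⟩
  have h : 0 < 2 ^ k := by positivity
  rw [pow_succ] at hM
  rw [Nat.odd_iff]
  omega

theorem PM_two {n M : ℕ} (hM : M = 2 ^ n + 1 ∨ M = 2 ^ n - 1) : PM M (2 ^ n) 1 := by
  have h : 0 < 2 ^ n := by positivity
  rcases hM with h1 | h1
  · right
    rw [← h1]
  · left
    have e : 2 ^ n = M + 1 := by omega
    rw [e]
    simp [Nat.ModEq]

/-- the value of the norm form on `r + 1/r` -/
theorem P_val {F L : Type*} [Field F] [Finite F] [Field L] [Algebra F L] {n j M : ℕ} (hn : 1 ≤ n) (hj : Nat.Coprime j n)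
    (hM : M = 2 ^ n + 1 ∨ M = 2 ^ n - 1) (hq : PM M (Nat.card F) (2 ^ j)) :
    ∃ ε : L, ε ≠ 0 ∧ ∀ r : L, r ^ M = 1 → r ≠ 1 → P F n (r + r⁻¹) = ε := by
  have hodd := odd_M hn hM
  have hpos : 0 < 2 ^ n := by positivity
  rcases hM with h1 | h1
  · refine ⟨-1, neg_ne_zero.2 one_ne_zero, fun r hr hr1 => ?_⟩
    have h0 := ne_zero' hodd hr
    have hk := key (F := F) (L := L) hn hj (PM_two (Or.inl h1)) hq hr
    have e1 : r ^ (2 ^ n) = r⁻¹ := by
      rw [h1, pow_succ] at hr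
      exact eq_inv_of_mul_eq_one_left hr
    have e2 : (r⁻¹) ^ (2 ^ n) = r := by rw [inv_pow, e1, inv_inv]
    rw [e1, e2] at hk
    have hne := sub_ne hodd hr hr1
    apply mul_right_cancel₀ hne
    unfold P
    rw [hk]
    ring
  · refine ⟨1, one_ne_zero, fun r hr hr1 => ?_⟩
    have h0 := ne_zero' hodd hr
    have hk := key (F := F) (L := L) hn hj (PM_two (Or.inr h1)) hq hr
    have e0 : 2 ^ n = M + 1 := by omega
    have e1 : r ^ (2 ^ n) = r := by rw [e0, pow_succ, hr, one_mul]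
    have e2 : (r⁻¹) ^ (2 ^ n) = r⁻¹ := by rw [inv_pow, e1]
    rw [e1, e2] at hk
    have hne := sub_ne hodd hr hr1
    apply mul_right_cancel₀ hne
    unfold P
    rw [hk, one_mul]

theorem diff {L : Type*} [Field L] (ω u v : L) (h1 : u - u⁻¹ ≠ 0) (h2 : v + v⁻¹ ≠ 0) :
    ω * (v - v⁻¹) / (v + v⁻¹) - ω * (u + u⁻¹) / (u - u⁻¹) =
      (-2 * ω) * (u * v⁻¹ + (u * v⁻¹)⁻¹) / ((v + v⁻¹) * (u - u⁻¹)) := by
  rw [div_sub_div _ _ h2 h1]
  congr 1
  rw [mul_inv, inv_inv]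
  ring

/-- the norm form of the difference does not depend on `v` -/
theorem P_diff {F L : Type*} [Field F] [Finite F] [Field L] {n M : ℕ} (hM : Odd M) (h2 : (2 : L) ≠ 0)
    {ε : L} (hε0 : ε ≠ 0) (hε : ∀ r : L, r ^ M = 1 → r ≠ 1 → P F n (r + r⁻¹) = ε) (ω u v : L)
    (hu : u ^ M = 1) (hv : v ^ M = 1) (hu1 : u ≠ 1) (hv1 : v ≠ 1) (huv : u ≠ v) :
    P F n (ω * (v - v⁻¹) / (v + v⁻¹) - ω * (u + u⁻¹) / (u - u⁻¹)) = P F n (-2 * ω) / P F n (u - u⁻¹) := by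
  rw [diff ω u v (sub_ne hM hu hu1) (add_ne hM h2 hv), P_div, P_mul F n (-2 * ω), P_mul F n (v + v⁻¹), hε v hv hv1,
    hε (u * v⁻¹) (by rw [mul_pow, inv_pow, hu, hv, inv_one, mul_one]) (fun h => huv (by
      have := eq_of_mul_inv_eq_one h
      exact this)), mul_comm (P F n (-2 * ω)) ε]
  rw [mul_div_mul_left _ _ hε0]

theorem injV {L : Type*} [Field L] {M : ℕ} (hM : Odd M) (h2 : (2 : L) ≠ 0) {ω u v : L} (hω : ω ≠ 0)
    (hu : u ^ M = 1) (hv : v ^ M = 1) (h : ω * (u - u⁻¹) / (u + u⁻¹) = ω * (v - v⁻¹) / (v + v⁻¹)) : u = v := by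
  have hu0 := ne_zero' hM hu
  have hv0 := ne_zero' hM hv
  rw [div_eq_div_iff (add_ne hM h2 hu) (add_ne hM h2 hv)] at h
  have h3 : (2 * ω) * (u * v⁻¹ - v * u⁻¹) = 0 := by linear_combination h
  have h4 : u * v⁻¹ - v * u⁻¹ = 0 := by
    rcases mul_eq_zero.1 h3 with h5 | h5
    · exact absurd h5 (mul_ne_zero h2 hω)
    · exact h5
  have h6 : (u * v⁻¹) ^ 2 = 1 := by
    field_simp at h4
    field_simp
    linear_combination h4
  exact eq_of_mul_inv_eq_one (eq_one hM (by rw [mul_pow, inv_pow, hu, hv, inv_one, mul_one]) h6)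

theorem injU {L : Type*} [Field L] {M : ℕ} (hM : Odd M) (h2 : (2 : L) ≠ 0) {ω u v : L} (hω : ω ≠ 0)
    (hu : u ^ M = 1) (hv : v ^ M = 1) (hu1 : u ≠ 1) (hv1 : v ≠ 1)
    (h : ω * (u + u⁻¹) / (u - u⁻¹) = ω * (v + v⁻¹) / (v - v⁻¹)) : u = v := by
  have hu0 := ne_zero' hM hu
  have hv0 := ne_zero' hM hv
  rw [div_eq_div_iff (sub_ne hM hu hu1) (sub_ne hM hv hv1)] at h
  have h3 : (2 * ω) * (u * v⁻¹ - v * u⁻¹) = 0 := by linear_combination -h
  have h4 : u * v⁻¹ - v * u⁻¹ = 0 := by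
    rcases mul_eq_zero.1 h3 with h5 | h5
    · exact absurd h5 (mul_ne_zero h2 hω)
    · exact h5
  have h6 : (u * v⁻¹) ^ 2 = 1 := by
    field_simp at h4
    field_simp
    linear_combination h4
  exact eq_of_mul_inv_eq_one (eq_one hM (by rw [mul_pow, inv_pow, hu, hv, inv_one, mul_one]) h6)

end Pool.Agent.Lib.NGT
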